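import Mathlib
import Pool.Agent.Lib.MP_f6e9c2_al.PropB

/-!
# A finitely based variety of Lie algebras whose two-variable part is not finitely based

Over the field with three elements, the variety `V` of all Lie algebras satisfying the single
identity `h = [g(x₀,x₁,x₂), [g(x₃,x₄,x₅), g(x₆,x₇,x₈)]]`, where
`g(u,v,w) = [[u,[u,[u,v]]],[u,w]] - [[u,v],[u,[u,[u,w]]]]`, is finitely based, but the variety
`V⁽²⁾` defined by the identities of `V` in two variables is not.
-/

set_option autoImplicit false

universe u v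

namespace Pool.Agent.Results.MP_f6e9c2_al.TwoVariablePart

section defs

/-- The Lie algebra `A` over `K` satisfies the identity `f = 0`: the element `f` of the free Lie
algebra `L(X)` on `X = {x₀, x₁, …}` vanishes under every substitution `φ : X → A`. -/
def Satisfies (K : Type v) [Field K] (A : Type u) [LieRing A] [LieAlgebra K A]
    (f : FreeLieAlgebra K ℕ) : Prop :=
  ∀ φ : ℕ → A, FreeLieAlgebra.lift K φ f = 0

/-- A class of Lie algebras over `K`. -/
def LieClass (K : Type v) [Field K] : Type _ :=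
  ∀ (A : Type u) [LieRing A] [LieAlgebra K A], Prop

/-- The variety defined by a set `S` of identities: the class of all Lie algebras over `K`
satisfying every identity in `S`. -/
def varietyOf (K : Type v) [Field K] (S : Set (FreeLieAlgebra K ℕ)) : LieClass.{u} K :=
  fun A _ _ => ∀ f ∈ S, Satisfies K A f

/-- `T(V)`: the set of all identities satisfied by every member of the class `V`. -/
def identitiesOf (K : Type v) [Field K] (V : LieClass.{u} K) : Set (FreeLieAlgebra K ℕ) :=
  {f | ∀ (A : Type u) [LieRing A] [LieAlgebra K A], V A → Satisfies K A f}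

/-- The class `V` is the variety defined by some finite set of identities. -/
def FinitelyBased (K : Type v) [Field K] (V : LieClass.{u} K) : Prop :=
  ∃ S : Set (FreeLieAlgebra K ℕ), S.Finite ∧
    ∀ (A : Type u) [LieRing A] [LieAlgebra K A], V A ↔ varietyOf K S A

/-- The Lie algebra `L(x₀, …, x_{n-1})` of all Lie polynomials in the first `n` variables: the
Lie subalgebra of `L(X)` generated by these variables. -/
noncomputable def inFirstVariables (K : Type v) [Field K] (n : ℕ) : LieSubalgebra K (FreeLieAlgebra K ℕ) :=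
  LieSubalgebra.lieSpan K (FreeLieAlgebra K ℕ) {x | ∃ i < n, x = FreeLieAlgebra.of K i}

/-- `V⁽ⁿ⁾`: the variety defined by all identities of `V` in the first `n` variables. -/
noncomputable def variablePart (K : Type v) [Field K] (n : ℕ) (V : LieClass.{u} K) : LieClass.{u} K :=
  varietyOf K (identitiesOf K V ∩ (inFirstVariables K n : Set (FreeLieAlgebra K ℕ)))

/-- `g(u,v,w) = [[u,[u,[u,v]]],[u,w]] - [[u,v],[u,[u,[u,w]]]]`. -/
def g {A : Type v} [LieRing A] (u v w : A) : A :=
  ⁅⁅u, ⁅u, ⁅u, v⁆⁆⁆, ⁅u, w⁆⁆ - ⁅⁅u, v⁆, ⁅u, ⁅u, ⁅u, w⁆⁆⁆⁆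

/-- The identity `h = [g(x₀,x₁,x₂), [g(x₃,x₄,x₅), g(x₆,x₇,x₈)]]` in nine variables. -/
noncomputable def h (K : Type v) [Field K] : FreeLieAlgebra K ℕ :=
  ⁅g (FreeLieAlgebra.of K 0) (FreeLieAlgebra.of K 1) (FreeLieAlgebra.of K 2),
    ⁅g (FreeLieAlgebra.of K 3) (FreeLieAlgebra.of K 4) (FreeLieAlgebra.of K 5),
      g (FreeLieAlgebra.of K 6) (FreeLieAlgebra.of K 7) (FreeLieAlgebra.of K 8)⁆⁆

end defs

/-! ## Changing the universe of a Lie algebra -/

section ulift

variable {A : Type} [LieRing A]

local instance instBracketULift : Bracket (ULift.{u} A) (ULift.{u} A) :=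
  ⟨fun a b => ⟨⁅a.down, b.down⁆⟩⟩

theorem down_lie (a b : ULift.{u} A) : (⁅a, b⁆ : ULift.{u} A).down = ⁅a.down, b.down⁆ := rfl

local instance instLieRingULift : LieRing (ULift.{u} A) where
  add_lie x y z := ULift.ext _ _ (by
    rw [ULift.add_down, down_lie, down_lie, down_lie, ULift.add_down, add_lie])
  lie_add x y z := ULift.ext _ _ (by
    rw [ULift.add_down, down_lie, down_lie, down_lie, ULift.add_down, lie_add])
  lie_self x := ULift.ext _ _ (by rw [down_lie, lie_self]; rfl)
  leibniz_lie x y z := ULift.ext _ _ (by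
    rw [ULift.add_down]
    simp only [down_lie]
    exact leibniz_lie _ _ _)

variable {K : Type} [Field K] [LieAlgebra K A]

local instance instLieAlgebraULift : LieAlgebra K (ULift.{u} A) where
  lie_smul c x y := ULift.ext _ _ (by
    rw [ULift.smul_down]
    simp only [down_lie, ULift.smul_down]
    exact lie_smul _ _ _)

/-- Forgetting the universe lift, as a Lie homomorphism. -/
def downHom : ULift.{u} A →ₗ⁅K⁆ A :=
  { toFun := fun a => a.down
    map_add' := fun _ _ => rfl
    map_smul' := fun _ _ => rfl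
    map_lie' := fun {_ _} => rfl }

theorem satisfies_ulift (f : FreeLieAlgebra K ℕ) :
    Satisfies K (ULift.{u} A) f ↔ Satisfies K A f := by
  constructor
  · intro hf φ
    have h1 := hf (fun i => ULift.up (φ i))
    have h2 := congrArg (downHom (K := K)) h1
    rw [MP_f6e9c2_al_work.comp_lift, map_zero] at h2
    exact h2
  · intro hf φ
    have h1 := hf (fun i => (φ i).down)
    apply ULift.ext
    have h2 : downHom (K := K) (FreeLieAlgebra.lift K φ f) = 0 := by
      rw [MP_f6e9c2_al_work.comp_lift]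
      exact h1
    exact h2

theorem varietyOf_ulift (S : Set (FreeLieAlgebra K ℕ)) :
    varietyOf K S (ULift.{u} A) ↔ varietyOf K S A :=
  ⟨fun hA f hf => (satisfies_ulift f).1 (hA f hf), fun hA f hf => (satisfies_ulift f).2 (hA f hf)⟩

end ulift

section proof

variable {K : Type} [Field K]

theorem h_eq : h K = MP_f6e9c2_al_work.hh (FreeLieAlgebra.of K) := rfl

theorem satisfies_h {A : Type u} [LieRing A] [LieAlgebra K A] :
    Satisfies K A (h K) ↔ ∀ a : ℕ → A, MP_f6e9c2_al_work.hh a = 0 := by
  unfold Satisfies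
  rw [h_eq]
  simp only [MP_f6e9c2_al_work.lift_hh]

/-- The elements of `L(x₀, x₁)` are the images of the free Lie algebra on two generators. -/
theorem mem_inFirstVariables_two (f : FreeLieAlgebra K ℕ) :
    f ∈ inFirstVariables K 2 ↔ ∃ f' : FreeLieAlgebra K (Fin 2), MP_f6e9c2_al_work.iota K f' = f := by
  constructor
  · intro hf
    have h1 : inFirstVariables K 2 ≤ (MP_f6e9c2_al_work.iota K).range := by
      unfold inFirstVariables
      rw [LieSubalgebra.lieSpan_le]
      rintro x ⟨i, hi, rfl⟩
      refine ⟨FreeLieAlgebra.of K ⟨i, hi⟩, ?_⟩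
      simp [MP_f6e9c2_al_work.iota]
    exact h1 hf
  · rintro ⟨f', rfl⟩
    induction f' using MP_f6e9c2_al_work.free_induction with
    | of x =>
      apply LieSubalgebra.subset_lieSpan
      exact ⟨x, x.2, by simp [MP_f6e9c2_al_work.iota]⟩
    | zero => rw [map_zero]; exact (inFirstVariables K 2).zero_mem
    | add a b ha hb => rw [map_add]; exact (inFirstVariables K 2).add_mem ha hb
    | smul c a ha => rw [map_smul]; exact (inFirstVariables K 2).smul_mem c ha
    | lie a b ha hb => rw [LieHom.map_lie]; exact (inFirstVariables K 2).lie_mem ha hb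

/-- Members of the verbal ideal are identities of the variety, in every universe. -/
theorem identity_of_mem_IV (f : FreeLieAlgebra K (Fin 2)) (hf : f ∈ MP_f6e9c2_al_work.IV K) :
    MP_f6e9c2_al_work.iota K f ∈ identitiesOf K (varietyOf.{u} K {h K}) := by
  intro A _ _ hA φ
  rw [MP_f6e9c2_al_work.lift_iota]
  exact MP_f6e9c2_al_work.map_IV_eq_zero _ (satisfies_h.1 (hA (h K) rfl)) f hf

/-- Two-variable identities of the variety in universe zero lie in the verbal ideal. -/
theorem mem_IV_of_identity (f : FreeLieAlgebra K (Fin 2))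
    (hf : MP_f6e9c2_al_work.iota K f ∈ identitiesOf K (varietyOf.{0} K {h K})) :
    f ∈ MP_f6e9c2_al_work.IV K := by
  have h1 := hf (FreeLieAlgebra K (Fin 2) ⧸ MP_f6e9c2_al_work.IV K) (by
    intro k hk
    rw [Set.mem_singleton_iff] at hk
    subst hk
    rw [satisfies_h]
    intro ψ
    choose b hb using fun i =>
      MP_f6e9c2_al_work.mkHom_surjective (MP_f6e9c2_al_work.IV K) (ψ i)
    have : ψ = fun i => MP_f6e9c2_al_work.mkHom (MP_f6e9c2_al_work.IV K) (b i) :=
      funext fun i => (hb i).symm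
    rw [this, ← MP_f6e9c2_al_work.map_hh, MP_f6e9c2_al_work.mkHom_eq_zero]
    exact MP_f6e9c2_al_work.hh_mem_IV _) (fun i =>
      if i = 0 then MP_f6e9c2_al_work.mkHom (MP_f6e9c2_al_work.IV K) (FreeLieAlgebra.of K 0) else
        MP_f6e9c2_al_work.mkHom (MP_f6e9c2_al_work.IV K) (FreeLieAlgebra.of K 1))
  rw [MP_f6e9c2_al_work.lift_iota] at h1
  rw [← MP_f6e9c2_al_work.mkHom_eq_zero (MP_f6e9c2_al_work.IV K), ← h1]
  have : MP_f6e9c2_al_work.mkHom (MP_f6e9c2_al_work.IV K) =
      FreeLieAlgebra.lift K (fun i : Fin 2 =>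
        if (i : ℕ) = 0 then MP_f6e9c2_al_work.mkHom (MP_f6e9c2_al_work.IV K)
          (FreeLieAlgebra.of K 0) else
        MP_f6e9c2_al_work.mkHom (MP_f6e9c2_al_work.IV K) (FreeLieAlgebra.of K 1)) := by
    apply FreeLieAlgebra.hom_ext
    intro i
    fin_cases i <;> simp
  exact congrArg (fun g => g f) this

/-- The identities of the variety over a larger universe hold over the universe zero. -/
theorem identitiesOf_mono (S : Set (FreeLieAlgebra K ℕ)) :
    identitiesOf K (varietyOf.{u} K S) ⊆ identitiesOf K (varietyOf.{0} K S) := by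
  intro f hf A _ _ hA
  let _ := instLieRingULift.{u} (A := A)
  let _ := instLieAlgebraULift.{u} (A := A) (K := K)
  exact (satisfies_ulift f).1 (hf (ULift.{u} A) ((varietyOf_ulift S).2 hA))

/-- The set of two-variable identities of the variety does not depend on the universe. -/
theorem identities_two_eq :
    identitiesOf K (varietyOf.{u} K {h K}) ∩
        (inFirstVariables K 2 : Set (FreeLieAlgebra K ℕ)) =
      identitiesOf K (varietyOf.{0} K {h K}) ∩
        (inFirstVariables K 2 : Set (FreeLieAlgebra K ℕ)) := by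
  apply Set.Subset.antisymm
  · exact fun f hf => ⟨identitiesOf_mono _ hf.1, hf.2⟩
  · rintro f ⟨hf1, hf2⟩
    refine ⟨?_, hf2⟩
    obtain ⟨f', rfl⟩ := (mem_inFirstVariables_two f).1 hf2
    exact identity_of_mem_IV f' (mem_IV_of_identity f' hf1)

end proof

/-- Over the field with three elements, the variety `V` of all Lie algebras satisfying the one
identity `h = 0` is finitely based, and the variety `V⁽²⁾` defined by the two-variable identities
of `V` is not finitely based. -/
theorem result :
    FinitelyBased (ZMod 3) (varietyOf.{u} (ZMod 3) {h (ZMod 3)}) ∧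
      ¬ FinitelyBased (ZMod 3) (variablePart (ZMod 3) 2 (varietyOf.{u} (ZMod 3) {h (ZMod 3)})) := by
  refine ⟨⟨{h (ZMod 3)}, Set.finite_singleton _, fun A _ _ => Iff.rfl⟩, ?_⟩
  rintro ⟨T, hTfin, hT⟩
  obtain ⟨Λ, b, hb, hC, hΛ⟩ := MP_f6e9c2_al_work.exists_functionals
  refine MP_f6e9c2_al_work.assembly (ZMod 3) Λ
    (fun f hf => MP_f6e9c2_al_work.propA Λ b hb hC hΛ f hf)
    (fun s0 => ⟨max s0 1, le_max_left _ _,
      MP_f6e9c2_al_work.propB Λ b hb hΛ (max s0 1) (le_max_right _ _)⟩)
    hC ⟨hTfin.toFinset, ?_⟩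
  intro L _ _
  let _ := instLieRingULift.{u} (A := L)
  let _ := instLieAlgebraULift.{u} (A := L) (K := ZMod 3)
  have h1 : varietyOf.{0} (ZMod 3) (identitiesOf (ZMod 3) (varietyOf.{0} (ZMod 3) {h (ZMod 3)}) ∩
      (inFirstVariables (ZMod 3) 2 : Set (FreeLieAlgebra (ZMod 3) ℕ))) L ↔
      varietyOf.{0} (ZMod 3) T L := by
    rw [← identities_two_eq.{u}, ← varietyOf_ulift.{u}, ← varietyOf_ulift.{u} T]
    exact hT (ULift.{u} L)
  have h2 : (∀ k ∈ hTfin.toFinset, ∀ φ : ℕ → L, FreeLieAlgebra.lift (ZMod 3) φ k = 0) ↔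
      varietyOf.{0} (ZMod 3) T L := by
    simp only [Set.Finite.mem_toFinset]
    exact Iff.rfl
  rw [h2, ← h1]
  constructor
  · rintro hL k ⟨k', rfl⟩ hk
    refine hL _ ⟨?_, (mem_inFirstVariables_two _).2 ⟨k', rfl⟩⟩
    intro M _ _ hM
    refine hk M ?_
    intro e he
    rw [Finset.mem_singleton] at he
    subst he
    exact hM _ rfl
  · rintro hL k ⟨hk1, hk2⟩
    obtain ⟨k', rfl⟩ := (mem_inFirstVariables_two k).1 hk2
    refine hL _ ⟨k', rfl⟩ ?_
    intro M _ _ hM
    refine hk1 M ?_
    intro e he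
    rw [Set.mem_singleton_iff] at he
    subst he
    exact hM _ (Finset.mem_singleton_self _)

end Pool.Agent.Results.MP_f6e9c2_al.TwoVariablePart
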